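import Pool.Agent.R490.GPh

set_option autoImplicit false

/-!
# Almost all integers: a very small positive cube plus a product of at most three primes
-/

namespace Pool.Agent.Results.MP_15f56c_nt.SmallCubePlusAlmostPrime

open Finset Filter Polynomial

open Classical in
/-- the number of the integers `1 ≤ m ≤ T` such that `N = n + σ m³` is at least `2` and has at most `r` prime factors
(counted with multiplicity), all of them at least `w` -/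
noncomputable def almostPrimeValues (σ : ℤ) (n r : ℕ) (w T : ℝ) : ℕ :=
  ((Icc 1 ⌊T⌋₊).filter (fun m : ℕ => ∃ N : ℕ, (N : ℤ) = n + σ * (m : ℤ) ^ 3 ∧ 2 ≤ N ∧
    N.primeFactorsList.length ≤ r ∧ ∀ q : ℕ, q.Prime → q ∣ N → w ≤ q)).card

/-- the polynomial `σ x³` -/
noncomputable def cub (σ : ℤ) : ℤ[X] := C σ * X ^ 3

lemma cub_eval (σ : ℤ) (x : ℤ) : (cub σ).eval x = σ * x ^ 3 := by
  unfold cub
  simp

lemma cub_deg (σ : ℤ) (hσ : σ ≠ 0) : (cub σ).natDegree = 3 := natDegree_C_mul_X_pow 3 σ hσ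

lemma cub_inj (σ : ℤ) (hσ : σ ≠ 0) : R490.GPh.Inj (cub σ) := by
  intro i j _ _ hne h
  rw [cub_eval, cub_eval] at h
  have h1 := mul_left_cancel₀ hσ h
  have h2 : i ^ 3 = j ^ 3 := by exact_mod_cast h1
  exact hne (Nat.pow_left_injective (by norm_num) h2)

lemma cub_adm (σ : ℤ) (hσ : σ.natAbs = 1) (n : ℕ) : R490.GPh.AdmP (cub σ) n := by
  intro p hp
  by_cases h0 : (p : ℤ) ∣ (n : ℤ)
  · refine ⟨1, fun h => ?_⟩
    rw [cub_eval, Nat.cast_one, one_pow, mul_one] at h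
    have h1 : (p : ℤ) ∣ σ := (dvd_add_right h0).1 h
    have h2 : p ∣ σ.natAbs := Int.natCast_dvd.1 h1
    rw [hσ] at h2
    exact hp.one_lt.ne' (Nat.dvd_one.1 h2)
  · refine ⟨0, fun h => h0 ?_⟩
    rw [cub_eval] at h
    simpa using h

lemma cnt_eq (σ : ℤ) (n r : ℕ) (w T : ℝ) :
    R490.LGb.cnt (fun _ => 1) (fun j => (cub σ).eval (j : ℤ)) r ⌊T⌋₊ n w ≤ almostPrimeValues σ n r w T := by
  classical
  unfold R490.LGb.cnt almostPrimeValues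
  apply card_le_card
  intro j hj
  rw [mem_filter] at hj ⊢
  obtain ⟨h1, h2, h3, h4⟩ := hj
  obtain ⟨N, hN⟩ : ∃ N : ℕ, (N : ℤ) = ((1 : ℕ) : ℤ) * n + (cub σ).eval (j : ℤ) :=
    ⟨(((1 : ℕ) : ℤ) * n + (cub σ).eval (j : ℤ)).toNat, Int.toNat_of_nonneg (by linarith)⟩
  rw [← hN] at h2 h3 h4
  rw [Int.toNat_natCast] at h3
  refine ⟨h1, N, ?_, by exact_mod_cast h2, h3, fun q hq hd => h4 q hq (by exact_mod_cast hd)⟩
  rw [hN, cub_eval, Nat.cast_one, one_mul]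

/-- one sign -/
lemma one_sign (σ : ℤ) (hσ : σ.natAbs = 1) (θ ε : ℝ) (r : ℕ) (hθ : 0 < θ) (hθ1 : θ ≤ 1)
    (hr : 1 / 8 + 25 / (12 * θ) < r) (hε : 0 < ε) :
    ∃ κ Λ : ℝ, 0 < κ ∧ 0 < Λ ∧ ∀ l : ℝ, Λ ≤ l → ∃ X₀ : ℕ, ∀ X : ℕ, X₀ ≤ X → ∀ Z L : ℕ,
      (X : ℝ) ^ θ ≤ L → Z + L ≤ X →
      (({n : ℕ | n ∈ Ioc Z (Z + L) ∧
        (almostPrimeValues σ n r ((X : ℝ) ^ (θ / 10)) (l * Real.log X) : ℝ) < κ * l} : Set ℕ).ncard : ℝ) ≤ ε * L := by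
  classical
  have hσ0 : σ ≠ 0 := by
    rintro rfl
    simp at hσ
  obtain ⟨κ, Λ, hκ, hΛ, h⟩ := R490.GPh.mainPoly (cub σ) (by rw [cub_deg σ hσ0]; norm_num) (cub_inj σ hσ0)
    θ ε r hθ hθ1 hr hε
  refine ⟨κ, Λ, hκ, hΛ, ?_⟩
  intro l hl
  obtain ⟨X₀, hX₀⟩ := eventually_atTop.1 (h l hl)
  refine ⟨X₀, ?_⟩
  intro X hX Z L hL hZ
  refine le_trans ?_ (hX₀ X hX Z L hL hZ)
  have hsub : ({n : ℕ | n ∈ Ioc Z (Z + L) ∧
        (almostPrimeValues σ n r ((X : ℝ) ^ (θ / 10)) (l * Real.log X) : ℝ) < κ * l} : Set ℕ) ⊆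
      ((Ioc Z (Z + L)).filter (fun n => R490.GPh.AdmP (cub σ) n ∧
        (R490.LGb.cnt (fun _ => 1) (fun j => (cub σ).eval (j : ℤ)) r ⌊l * Real.log X⌋₊ n
          ((X : ℝ) ^ (θ / 10)) : ℝ) < κ * l) : Finset ℕ) := by
    intro n hn
    obtain ⟨a1, a3⟩ := hn
    rw [mem_coe, mem_filter]
    refine ⟨a1, cub_adm σ hσ n, ?_⟩
    have a4 := cnt_eq σ n r ((X : ℝ) ^ (θ / 10)) (l * Real.log X)
    have a5 : (R490.LGb.cnt (fun _ => 1) (fun j => (cub σ).eval (j : ℤ)) r ⌊l * Real.log X⌋₊ n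
        ((X : ℝ) ^ (θ / 10)) : ℝ) ≤ almostPrimeValues σ n r ((X : ℝ) ^ (θ / 10)) (l * Real.log X) := by
      exact_mod_cast a4
    linarith
  have h5 := Set.ncard_le_ncard hsub (Finset.finite_toSet _)
  rw [Set.ncard_coe_finset] at h5
  exact_mod_cast h5

open Classical in
/-- the number of the integers `1 ≤ m ≤ T` such that `N = n - m³` is at least `2` and has at most `r` prime factors
(counted with multiplicity), all of them at least `w` -/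
noncomputable def smallCubes (n r : ℕ) (w T : ℝ) : ℕ :=
  ((Icc 1 ⌊T⌋₊).filter (fun m : ℕ => ∃ N : ℕ, n = m ^ 3 + N ∧ 2 ≤ N ∧
    N.primeFactorsList.length ≤ r ∧ ∀ q : ℕ, q.Prime → q ∣ N → w ≤ q)).card

lemma small_eq (n r : ℕ) (w T : ℝ) : almostPrimeValues (-1) n r w T = smallCubes n r w T := by
  classical
  unfold almostPrimeValues smallCubes
  congr 1
  apply filter_congr
  intro m _
  apply exists_congr
  intro N
  apply and_congr_left'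
  constructor
  · intro h
    zify
    linarith
  · intro h
    rw [h]
    push_cast
    ring

/-- **Almost all integers are the sum of a very small positive cube and an almost prime.** -/
theorem result (θ ε : ℝ) (r : ℕ) (hθ : 0 < θ) (hθ1 : θ ≤ 1) (hr : 1 / 8 + 25 / (12 * θ) < r) (hε : 0 < ε) :
    ∃ κ Λ : ℝ, 0 < κ ∧ 0 < Λ ∧ ∀ l : ℝ, Λ ≤ l → ∃ X₀ : ℕ, ∀ X : ℕ, X₀ ≤ X → ∀ Z L : ℕ,
      (X : ℝ) ^ θ ≤ L → Z + L ≤ X →
      (({n : ℕ | n ∈ Ioc Z (Z + L) ∧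
        (smallCubes n r ((X : ℝ) ^ (θ / 10)) (l * Real.log X) : ℝ) < κ * l} : Set ℕ).ncard : ℝ) ≤ ε * L := by
  obtain ⟨κ, Λ, hκ, hΛ, h⟩ := one_sign (-1) rfl θ ε r hθ hθ1 hr hε
  refine ⟨κ, Λ, hκ, hΛ, fun l hl => ?_⟩
  obtain ⟨X₀, hX₀⟩ := h l hl
  refine ⟨X₀, fun X hX Z L hL hZ => ?_⟩
  have h1 := hX₀ X hX Z L hL hZ
  simp only [small_eq] at h1
  exact h1

end Pool.Agent.Results.MP_15f56c_nt.SmallCubePlusAlmostPrime
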