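import Pool.Agent.R121.LP

set_option autoImplicit false

/-!
# Almost all integers are the sum of a very small cube (or higher power) and an almost prime
-/

namespace Pool.Agent.Results.MP_15f56c_nt.SmallCubesAlmostPrimes

open Finset
open Pool.Agent

open Classical in
/-- the number of the `1 ≤ m ≤ T` such that `n - m ^ d` is an integer `N ≥ 2` with at most `k` prime factors
(counted with multiplicity), all of them at least `w` -/
noncomputable def representations (d n k : ℕ) (w T : ℝ) : ℕ :=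
  ((Icc 1 ⌊T⌋₊).filter (fun m : ℕ => ∃ N : ℕ, 2 ≤ N ∧ n = N + m ^ d ∧
    N.primeFactorsList.length ≤ k ∧ ∀ p : ℕ, p.Prime → p ∣ N → w ≤ p)).card

lemma cnt_le (d n k : ℕ) (w T : ℝ) :
    R490.LGb.cnt (fun _ => 1) (fun j => -R121.LP.ev (Polynomial.X ^ d) j) k ⌊T⌋₊ n w ≤
      representations d n k w T := by
  classical
  unfold R490.LGb.cnt representations
  apply card_le_card
  intro j hj
  rw [mem_filter] at hj ⊢
  obtain ⟨h1, h2, h3, h4⟩ := hj
  refine ⟨h1, ?_⟩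
  obtain ⟨N, hN⟩ : ∃ N : ℕ, (N : ℤ) = ((1 : ℕ) : ℤ) * n + -R121.LP.ev (Polynomial.X ^ d) j :=
    ⟨(((1 : ℕ) : ℤ) * n + -R121.LP.ev (Polynomial.X ^ d) j).toNat, Int.toNat_of_nonneg (by linarith)⟩
  rw [← hN] at h2 h3 h4
  rw [Int.toNat_natCast] at h3
  refine ⟨N, by exact_mod_cast h2, ?_, h3, ?_⟩
  · have h5 : R121.LP.ev (Polynomial.X ^ d) j = (j : ℤ) ^ d := by
      unfold R121.LP.ev
      rw [Polynomial.eval_pow, Polynomial.eval_X]
    rw [h5] at hN
    have : (n : ℤ) = N + (j : ℤ) ^ d := by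
      rw [hN]
      push_cast
      ring
    exact_mod_cast this
  · intro p hp hd
    exact h4 p hp (by exact_mod_cast hd)

/-- **Almost all integers are the sum of a very small cube, and more generally of a very small `d`-th power, and
an almost prime.** -/
theorem result (d : ℕ) (hd : 1 ≤ d) (θ ε : ℝ) (k : ℕ) (hθ : 0 < θ) (hθ1 : θ ≤ 1)
    (hk : 1 / 8 + 25 / (12 * θ) < k) (hε : 0 < ε) :
    ∃ κ Λ : ℝ, 0 < κ ∧ 0 < Λ ∧ ∀ l : ℝ, Λ ≤ l → ∃ X₀ : ℕ, ∀ X : ℕ, X₀ ≤ X → ∀ Z L : ℕ,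
      (X : ℝ) ^ θ ≤ L → Z + L ≤ X →
      (({n : ℕ | n ∈ Ioc Z (Z + L) ∧
        (representations d n k ((X : ℝ) ^ (θ / 10)) (l * Real.log X) : ℝ) < κ * l} : Set ℕ).ncard : ℝ) ≤
        ε * L := by
  classical
  have hev : ∀ x : ℤ, (Polynomial.X ^ d : Polynomial ℤ).eval x = x ^ d := fun x => by
    rw [Polynomial.eval_pow, Polynomial.eval_X]
  have hadm : ∀ n : ℕ, R121.LP.AdmF (Polynomial.X ^ d) n := by
    intro n p hp
    by_contra hno
    push Not at hno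
    have k0 := hno 0
    have k1 := hno 1
    rw [hev] at k0 k1
    have k2 := dvd_sub k0 k1
    have e : ((n : ℤ) - ((0 : ℕ) : ℤ) ^ d) - ((n : ℤ) - ((1 : ℕ) : ℤ) ^ d) = ((1 : ℕ) : ℤ) := by
      push_cast
      rw [zero_pow (by omega), one_pow]
      ring
    rw [e] at k2
    have k3 : p ∣ 1 := by exact_mod_cast k2
    exact hp.one_lt.ne' (Nat.dvd_one.1 k3)
  obtain ⟨κ, Λ, hκ, hΛ, h⟩ := R121.LP.mainP (Polynomial.X ^ d) (by rw [Polynomial.natDegree_X_pow]; exact hd)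
    (by
      intro j j' _ _ hne h
      rw [hev, hev] at h
      have h2 : j ^ d = j' ^ d := by exact_mod_cast h
      exact hne (Nat.pow_left_injective (by omega) h2)) θ ε k hθ hθ1 hk hε
  refine ⟨κ, Λ, hκ, hΛ, ?_⟩
  intro l hl
  obtain ⟨X₀, hX₀⟩ := Filter.eventually_atTop.1 (h l hl)
  refine ⟨X₀, ?_⟩
  intro X hX Z L hL hZ
  have h3 := hX₀ X hX Z L hL hZ
  refine le_trans ?_ h3
  rw [← Set.ncard_coe_finset]
  have hsub : ({n : ℕ | n ∈ Ioc Z (Z + L) ∧
        (representations d n k ((X : ℝ) ^ (θ / 10)) (l * Real.log X) : ℝ) < κ * l} : Set ℕ) ⊆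
      (((Ioc Z (Z + L)).filter (fun n => R121.LP.AdmF (Polynomial.X ^ d) n ∧
        (R490.LGb.cnt (fun _ => 1) (fun j => -R121.LP.ev (Polynomial.X ^ d) j) k ⌊l * Real.log X⌋₊ n
          ((X : ℝ) ^ (θ / 10)) : ℝ) < κ * l)) : Finset ℕ) := by
    intro n hn
    obtain ⟨a1, a2⟩ := hn
    rw [mem_coe, mem_filter]
    refine ⟨a1, hadm n, ?_⟩
    have a3 : (R490.LGb.cnt (fun _ => 1) (fun j => -R121.LP.ev (Polynomial.X ^ d) j) k ⌊l * Real.log X⌋₊ n
        ((X : ℝ) ^ (θ / 10)) : ℝ) ≤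
        representations d n k ((X : ℝ) ^ (θ / 10)) (l * Real.log X) := by exact_mod_cast cnt_le d n k _ _
    linarith
  have h4 := Set.ncard_le_ncard hsub (Finset.finite_toSet _)
  exact_mod_cast h4

end Pool.Agent.Results.MP_15f56c_nt.SmallCubesAlmostPrimes
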